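import Pool.Agent.Helper63.XP.StA

/-!
Module CAX of project XP: few functionals are captured (complex form of module CAP of helper71 in project XR).
-/

set_option autoImplicit false

namespace Pool.Agent.Helper80.XP

open Pool.Agent.Helper63.XP
open Pool.Agent.Helper63.XR (StTrh)
open Finset

private theorem exists_phase (z : ℂ) (hz : 0 < ‖z‖) : ∃ c : ℂ, ‖c‖ = 1 ∧ c * z = (‖z‖ : ℂ) := by
  have hz0 : z ≠ 0 := norm_pos_iff.1 hz
  refine ⟨(‖z‖ : ℂ) / z, ?_, div_mul_cancel₀ _ hz0⟩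
  rw [norm_div, Complex.norm_real, norm_norm, div_self hz.ne']

theorem hCAX : StCax := by
  intro hTrh J T _ _ _ _ E ρ L ε ψ f hρ hε hf hcap hL
  have hρ0 : 0 ≤ ρ := le_trans (Nat.cast_nonneg _) hρ
  have hex : ∀ t, ∃ c : ℂ, ‖c‖ = 1 ∧ c * pc (ψ t) (f t) = (‖pc (ψ t) (f t)‖ : ℂ) :=
    fun t => exists_phase _ (lt_of_lt_of_le hε (hcap t))
  choose c hc1 hc2 using hex
  let M : Matrix T T ℂ := fun t t' => c t' * pc (ψ t) (f t')
  let Ψ : Matrix T J ℂ := fun t j => ψ t j
  let F : Matrix J T ℂ := fun j t' => c t' * f t' j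
  have hEF : E * F = F := by
    funext j t'
    show ∑ k, E j k * (c t' * f t' k) = c t' * f t' j
    have h1 : (E.mulVec (f t')) j = f t' j := congrFun (hf t') j
    have h2 : (E.mulVec (f t')) j = ∑ k, E j k * f t' k := rfl
    rw [h2] at h1
    rw [← h1, Finset.mul_sum]
    apply Finset.sum_congr rfl
    intro k _
    ring
  have hM : M = Ψ * (E * F) := by
    rw [hEF]
    funext t t'
    show c t' * (∑ j, ψ t j * f t' j) = ∑ j, ψ t j * (c t' * f t' j)
    rw [Finset.mul_sum]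
    apply Finset.sum_congr rfl
    intro k _
    ring
  have hrank : (M.rank : ℝ) ≤ ρ := by
    have h1 : M.rank ≤ E.rank := by
      rw [hM]
      exact (Matrix.rank_mul_le_right _ _).trans (Matrix.rank_mul_le_left _ _)
    exact le_trans (by exact_mod_cast h1) hρ
  have htr : M.trace = ((∑ t, ‖pc (ψ t) (f t)‖ : ℝ) : ℂ) := by
    show ∑ t, c t * pc (ψ t) (f t) = _
    push_cast
    exact Finset.sum_congr rfl fun t _ => hc2 t
  have htr2 : (Fintype.card T : ℝ) * ε ≤ ‖M.trace‖ := by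
    rw [htr, Complex.norm_real, Real.norm_eq_abs,
      abs_of_nonneg (Finset.sum_nonneg fun t _ => norm_nonneg _)]
    have h1 : ∑ _t : T, ε ≤ ∑ t, ‖pc (ψ t) (f t)‖ := Finset.sum_le_sum fun t _ => hcap t
    rw [Finset.sum_const, Finset.card_univ, nsmul_eq_mul] at h1
    exact h1
  have hHS : ∑ t, ∑ t', ‖M t t'‖ ^ 2 ≤ (Fintype.card T : ℝ) * L ^ 2 := by
    rw [Finset.sum_comm]
    have h1 : ∀ t' ∈ (Finset.univ : Finset T), ∑ t, ‖M t t'‖ ^ 2 ≤ L ^ 2 := by
      intro t' _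
      have h2 : ∀ t, ‖M t t'‖ = ‖pc (ψ t) (f t')‖ := by
        intro t
        show ‖c t' * pc (ψ t) (f t')‖ = _
        rw [norm_mul, hc1, one_mul]
      simp only [h2]
      exact hL t'
    have h3 := Finset.sum_le_sum h1
    rw [Finset.sum_const, Finset.card_univ, nsmul_eq_mul] at h3
    exact h3
  have hmain := hTrh T M
  rcases Nat.eq_zero_or_pos (Fintype.card T) with h0 | h0
  · rw [h0, Nat.cast_zero, zero_mul]
    positivity
  · have hT : (0 : ℝ) < Fintype.card T := by exact_mod_cast h0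
    have h1 : ((Fintype.card T : ℝ) * ε) ^ 2 ≤ ‖M.trace‖ ^ 2 :=
      pow_le_pow_left₀ (by positivity) htr2 2
    have h2 : (M.rank : ℝ) * ∑ t, ∑ t', ‖M t t'‖ ^ 2 ≤ ρ * ((Fintype.card T : ℝ) * L ^ 2) :=
      mul_le_mul hrank hHS (Finset.sum_nonneg fun _ _ => Finset.sum_nonneg fun _ _ => by positivity)
        hρ0
    have h3 : (Fintype.card T : ℝ) * ((Fintype.card T : ℝ) * ε ^ 2) ≤
        (Fintype.card T : ℝ) * (ρ * L ^ 2) := by
      calc (Fintype.card T : ℝ) * ((Fintype.card T : ℝ) * ε ^ 2)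
          = ((Fintype.card T : ℝ) * ε) ^ 2 := by ring
        _ ≤ ρ * ((Fintype.card T : ℝ) * L ^ 2) := h1.trans (hmain.trans h2)
        _ = (Fintype.card T : ℝ) * (ρ * L ^ 2) := by ring
    exact le_of_mul_le_mul_left h3 hT

end Pool.Agent.Helper80.XP
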